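import Mathlib
import Pool.Agent.Lib.helper27.GrassLimit

namespace Pool.Agent.Results.MP_7c306c_al.AllHomogeneous

open Pool.Agent.Lib.helper27

/-- The Grassmann algebra of the vector space with countably infinite basis `e_0, e_1, …`. -/
abbrev E (F : Type*) [Field F] : Type _ := ExteriorAlgebra F (ℕ →₀ F)

/-- The generator `e_n`. -/
noncomputable def gen (F : Type*) [Field F] (n : ℕ) : E F :=
  ExteriorAlgebra.ι F (Finsupp.single n (1 : F))

/-- A `ℤ₂`-grading: `E = A 0 ⊕ A 1` as subspaces, with `A i * A j ⊆ A (i + j)`. -/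
def IsGrading {F : Type*} [Field F] (A : ZMod 2 → Submodule F (E F)) : Prop :=
  IsCompl (A 0) (A 1) ∧ ∀ (i j : ZMod 2) (x y : E F), x ∈ A i → y ∈ A j → x * y ∈ A (i + j)

/-- A grading is homogeneous if each generator lies in `A 0` or in `A 1`. -/
def IsHomogeneous {F : Type*} [Field F] (A : ZMod 2 → Submodule F (E F)) : Prop :=
  ∀ n : ℕ, gen F n ∈ A 0 ∨ gen F n ∈ A 1

theorem zmod_cases (i : ZMod 2) : i = 0 ∨ i = 1 := by
  revert i; decide

theorem exists_inv {F : Type*} [Field F] {A : ZMod 2 → Submodule F (E F)} (hA : IsGrading A) :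
    ∃ φ : E F →ₐ[F] E F, (∀ x, φ (φ x) = x) ∧ (∀ x ∈ A 0, φ x = x) ∧ ∀ x ∈ A 1, φ x = -x := by
  obtain ⟨hc, hm⟩ := hA
  let l : E F →ₗ[F] E F := LinearMap.ofIsCompl hc (A 0).subtype (-(A 1).subtype)
  have h0 : ∀ x ∈ A 0, l x = x := fun x hx => LinearMap.ofIsCompl_apply_left hc ⟨x, hx⟩
  have h1 : ∀ x ∈ A 1, l x = -x := fun x hx => LinearMap.ofIsCompl_apply_right hc ⟨x, hx⟩
  have dec : ∀ x : E F, ∃ u ∈ A 0, ∃ v ∈ A 1, u + v = x := fun x =>
    Submodule.mem_sup.mp (by rw [hc.sup_eq_top]; exact Submodule.mem_top)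
  have disj : ∀ x, x ∈ A 0 → x ∈ A 1 → x = 0 := Submodule.disjoint_def.mp hc.disjoint
  have m00 : ∀ x y, x ∈ A 0 → y ∈ A 0 → x * y ∈ A 0 := fun x y => hm 0 0 x y
  have m01 : ∀ x y, x ∈ A 0 → y ∈ A 1 → x * y ∈ A 1 := fun x y => hm 0 1 x y
  have m10 : ∀ x y, x ∈ A 1 → y ∈ A 0 → x * y ∈ A 1 := fun x y => hm 1 0 x y
  have m11 : ∀ x y, x ∈ A 1 → y ∈ A 1 → x * y ∈ A 0 := fun x y => hm 1 1 x y
  have hone : (1 : E F) ∈ A 0 := by
    obtain ⟨u, hu, v, hv, h⟩ := dec 1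
    have a1 : u * v = 0 := by
      refine disj _ ?_ (m01 _ _ hu hv)
      have : u * v = u - u * u := by rw [eq_sub_iff_add_eq, add_comm, ← mul_add, h, mul_one]
      rw [this]; exact sub_mem hu (m00 _ _ hu hu)
    have a2 : v * v = 0 := by
      refine disj _ (m11 _ _ hv hv) ?_
      have : v * v = v - v * u := by rw [eq_sub_iff_add_eq, add_comm, ← mul_add, h, mul_one]
      rw [this]; exact sub_mem hv (m10 _ _ hv hu)
    have a3 : v = 0 := by rw [← one_mul v, ← h, add_mul, a1, a2, add_zero]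
    rw [← h, a3, add_zero]; exact hu
  have hmul : ∀ x y, l (x * y) = l x * l y := by
    intro x y
    obtain ⟨u, hu, v, hv, rfl⟩ := dec x
    obtain ⟨u', hu', v', hv', rfl⟩ := dec y
    simp only [add_mul, mul_add, map_add, h0 _ hu, h0 _ hu', h1 _ hv, h1 _ hv',
      h0 _ (m00 _ _ hu hu'), h1 _ (m01 _ _ hu hv'), h1 _ (m10 _ _ hv hu'),
      h0 _ (m11 _ _ hv hv'), mul_neg, neg_mul]
    abel
  refine ⟨AlgHom.ofLinearMap l (h0 _ hone) hmul, fun x => ?_, h0, h1⟩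
  obtain ⟨u, hu, v, hv, rfl⟩ := dec x
  change l (l (u + v)) = u + v
  rw [map_add, h0 _ hu, h1 _ hv, map_add, map_neg, h0 _ hu, h1 _ hv, neg_neg]

theorem result (F : Type*) [Field F] (hF : ringChar F ≠ 2)
    (A : ZMod 2 → Submodule F (E F)) (hA : IsGrading A) :
    ∃ B : ZMod 2 → Submodule F (E F), IsGrading B ∧ IsHomogeneous B ∧
      ∃ f : E F ≃ₐ[F] E F, ∀ (i : ZMod 2) (x : E F), x ∈ A i → f x ∈ B i := by
  have h2 : (2 : F) ≠ 0 := Ring.two_ne_zero hF
  obtain ⟨φ, hφ, h0, h1⟩ := exists_inv hA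
  obtain ⟨f, η, hη, hd, hf⟩ := GrassLimit.linearize h2 Finsupp.basisSingleOne φ hφ
  let B : ZMod 2 → Submodule F (E F) := fun i =>
    LinearMap.ker (η.toLinearMap - (if i = 0 then (1 : F) else -1) • LinearMap.id)
  have b0 : ∀ x, x ∈ B 0 ↔ η x = x := fun x => by simp [B, sub_eq_zero]
  have b1 : ∀ x, x ∈ B 1 ↔ η x = -x := fun x => by
    simp [B, add_eq_zero_iff_eq_neg]
  refine ⟨B, ⟨⟨?_, ?_⟩, ?_⟩, ?_, f, ?_⟩
  · rw [Submodule.disjoint_def]
    intro v h3 h4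
    rw [b0] at h3
    rw [b1, h3] at h4
    exact GrassBasic.eq_zero_of_eq_neg h2 h4
  · rw [codisjoint_iff, eq_top_iff]
    intro v _
    have : v = (2⁻¹ : F) • (v + η v) + (2⁻¹ : F) • (v - η v) := by
      rw [← smul_add, add_add_sub_cancel, ← two_smul F v, smul_smul, inv_mul_cancel₀ h2,
        one_smul]
    rw [this]
    refine Submodule.add_mem_sup ((B 0).smul_mem _ ?_) ((B 1).smul_mem _ ?_)
    · rw [b0, map_add, hη, add_comm]
    · rw [b1, map_sub, hη, neg_sub]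
  · intro i j x y hx hy
    rcases zmod_cases i with rfl | rfl <;> rcases zmod_cases j with rfl | rfl
    · change x * y ∈ B 0
      rw [b0] at hx hy ⊢
      rw [map_mul, hx, hy]
    · change x * y ∈ B 1
      rw [b0] at hx
      rw [b1] at hy ⊢
      rw [map_mul, hx, hy, mul_neg]
    · change x * y ∈ B 1
      rw [b0] at hy
      rw [b1] at hx ⊢
      rw [map_mul, hx, hy, neg_mul]
    · change x * y ∈ B 0
      rw [b1] at hx hy
      rw [b0, map_mul, hx, hy, neg_mul_neg]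
  · intro n
    rw [b0, b1]
    exact hd n
  · intro i x hx
    rcases zmod_cases i with rfl | rfl
    · rw [b0, ← hf, h0 x hx]
    · rw [b1, ← hf, h1 x hx, map_neg]

end Pool.Agent.Results.MP_7c306c_al.AllHomogeneous
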